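import Mathlib

/-!
# Definitions for MP_cc7fb1 (Galvin property for complete ultrafilters on a successor cardinal)
-/

namespace Pool.Agent.Lib.MP_cc7fb1_lc

open Cardinal Set

universe u

/-- `U` is uniform: every member of `U` has the cardinality of the underlying set. -/
def UniformUF {α : Type u} (U : Ultrafilter α) : Prop :=
  ∀ A : Set α, A ∈ U → #A = #α

/-- The filter `G` is `μ`-complete: the intersection of fewer than `μ` members is a member. -/
def CompleteFilter {α : Type u} (G : Filter α) (μ : Cardinal.{u}) : Prop :=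
  ∀ S : Set (Set α), #S < μ → (∀ A ∈ S, A ∈ G) → ⋂₀ S ∈ G

/-- The Galvin property `Gal(U, μ, lam)`: among any `lam` members of `U` (indexed by a type of
cardinality `lam`, repetitions allowed) one can choose `μ` many indices such that the intersection
of the corresponding members is still in `U`. -/
def Gal {α : Type u} (U : Ultrafilter α) (μ lam : Cardinal.{u}) : Prop :=
  ∀ ι : Type u, #ι = lam → ∀ A : ι → Set α, (∀ i, A i ∈ U) →
    ∃ I : Set ι, #I = μ ∧ (⋂ i ∈ I, A i) ∈ U

/-- `U` is `(κ, lam)`-regular: there are `lam` many members of `U` such that every point lies in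
fewer than `κ` of them (equivalently any `κ` of them have empty intersection). -/
def RegularUF {α : Type u} (U : Ultrafilter α) (κ lam : Cardinal.{u}) : Prop :=
  ∃ (ι : Type u) (E : ι → Set α), #ι = lam ∧ (∀ i, E i ∈ U) ∧ ∀ x : α, #{i | x ∈ E i} < κ

/-- There is a `κ⁺`-complete filter `G` contained in `U` and there are `κ⁺⁺` many functions from
`α` into a set of size `κ` any two of which differ at `G`-almost all points. -/
def ManySeparated {α : Type u} (U : Ultrafilter α) (κ : Cardinal.{u}) : Prop :=
  ∃ G : Filter α, (U : Filter α) ≤ G ∧ CompleteFilter G (Order.succ κ) ∧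
    ∃ (ι T : Type u) (F : ι → α → T), #ι = Order.succ (Order.succ κ) ∧ #T = κ ∧
      ∀ i j : ι, i ≠ j → {x | F i x ≠ F j x} ∈ G

/-- There are `κ⁺⁺` many functions from `α` into a set of size `κ` any two of which agree in at
most `κ` points. -/
def ManyAlmostDisjoint (α : Type u) (κ : Cardinal.{u}) : Prop :=
  ∃ (ι T : Type u) (F : ι → α → T), #ι = Order.succ (Order.succ κ) ∧ #T = κ ∧
      ∀ i j : ι, i ≠ j → #{x | F i x = F j x} ≤ κ

end Pool.Agent.Lib.MP_cc7fb1_lc
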