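import Mathlib
import Pool.Agent.Lib.MP_cc7fb1_lc.Defs

/-!
# Definitions: normal filters on `κ⁺` and dense sets of the quotient algebra

The points are the ordinals below `κ⁺`, i.e. the elements of the well-order
`(Order.succ κ).ord.ToType`.  A normal ideal `I` is represented by its dual filter `F`.
-/

set_option autoImplicit false

namespace Pool.Agent.Lib.MP_cc7fb1_lc

open Cardinal Set

universe u

variable {κ : Cardinal.{u}}

/-- The ordinals below `κ⁺`. -/
abbrev Pts (κ : Cardinal.{u}) : Type u := (Order.succ κ).ord.ToType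

/-- `F` is a normal filter on `κ⁺`: it is proper, contains all final segments and is closed under
diagonal intersections of `κ⁺` many members. -/
structure NormalFilter (F : Filter (Pts κ)) : Prop where
  proper : ∅ ∉ F
  final : ∀ b, Ioi b ∈ F
  diag : ∀ C : Pts κ → Set (Pts κ), (∀ x, C x ∈ F) → {y | ∀ x < y, y ∈ C x} ∈ F

/-- `A` is positive with respect to `F`: its complement is not in `F`. -/
def Pos (F : Filter (Pts κ)) (A : Set (Pts κ)) : Prop := Aᶜ ∉ F

/-- `A` is contained in `B` modulo the ideal dual to `F`. -/
def SubMod (F : Filter (Pts κ)) (A B : Set (Pts κ)) : Prop := {x | x ∈ A → x ∈ B} ∈ F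

/-- The sets `D a`, `a < κ⁺`, represent a dense subset of `P(κ⁺)/I`, `I` the ideal dual to `F`:
they are positive and every positive set contains one of them modulo `I`. -/
structure DenseFamily (F : Filter (Pts κ)) (D : Pts κ → Set (Pts κ)) : Prop where
  pos : ∀ a, Pos F (D a)
  dense : ∀ A, Pos F A → ∃ a, SubMod F (D a) A

/-- The sets `D a` are closed under lower bounds of descending sequences of length `< κ`, modulo
the ideal dual to `F`. -/
def DescClosed (F : Filter (Pts κ)) (D : Pts κ → Set (Pts κ)) : Prop :=
  ∀ (ι : Type u) [LinearOrder ι] [WellFoundedLT ι], #ι < κ → ∀ s : ι → Pts κ,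
    (∀ i j, i < j → SubMod F (D (s j)) (D (s i))) → ∃ a, ∀ i, SubMod F (D a) (D (s i))

/-- `U` is weakly normal: every function which is regressive on a set in `U` is bounded on a set
in `U`. -/
def WeaklyNormal (U : Ultrafilter (Pts κ)) : Prop :=
  ∀ f : Pts κ → Pts κ, {y | f y < y} ∈ U → ∃ b, {y | f y < b} ∈ U

/-- Every proper `κ`-complete filter on `κ⁺` extends to a `κ`-complete ultrafilter (for an
uncountable cardinal `κ` this says that `κ` is strongly compact up to `κ⁺`; it holds if `κ` is
strongly compact). -/
def FilterExtension (κ : Cardinal.{u}) : Prop :=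
  ∀ G : Filter (Pts κ), ∅ ∉ G → CompleteFilter G κ →
    ∃ U : Ultrafilter (Pts κ), (U : Filter (Pts κ)) ≤ G ∧ CompleteFilter (U : Filter (Pts κ)) κ

end Pool.Agent.Lib.MP_cc7fb1_lc
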