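import Mathlib
import Pool.Agent.Lib.MP_cc7fb1_lc.Defs

/-!
# Well orders of type `κ⁺`, almost disjoint families of functions
-/

namespace Pool.Agent.Lib.MP_cc7fb1_lc

open Cardinal Set

universe u

section order

variable {κ : Cardinal.{u}}

/-- initial segments of the order type `κ⁺` have at most `κ` elements -/
theorem mk_Iio_le (a : (Order.succ κ).ord.ToType) : #(Iio a) ≤ κ := by
  have h : #(Iio a) < Order.succ κ := by
    have := mk_Iio_lt a (by simp)
    simpa using this
  exact Order.lt_succ_iff.mp h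

theorem mk_Iic_le (hκ : ℵ₀ ≤ κ) (a : (Order.succ κ).ord.ToType) : #(Iic a) ≤ κ := by
  have h : Iic a ⊆ insert a (Iio a) := by
    intro x hx
    rcases lt_or_eq_of_le (show x ≤ a from hx) with h | h
    · exact Or.inr h
    · exact Or.inl h
  refine (mk_le_mk_of_subset h).trans (mk_insert_le.trans ?_)
  exact (add_le_add_left (mk_Iio_le a) 1).trans (add_one_eq hκ).le

/-- sets of size at most `κ` are strictly bounded in `κ⁺` -/
theorem exists_bound (hκ : ℵ₀ ≤ κ) {ι : Type u} (hι : #ι ≤ κ)
    (s : ι → (Order.succ κ).ord.ToType) : ∃ b, ∀ i, s i < b := by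
  by_contra hcon
  push Not at hcon
  have hcov : (univ : Set (Order.succ κ).ord.ToType) ⊆ ⋃ i, Iic (s i) := by
    intro b _
    obtain ⟨i, hi⟩ := hcon b
    exact mem_iUnion.mpr ⟨i, hi⟩
  have h1 : #(⋃ i, Iic (s i)) ≤ κ := by
    refine (mk_iUnion_le_sum_mk).trans ?_
    refine (sum_le_mk_mul_iSup _).trans ?_
    refine (mul_le_mul' hι (ciSup_le' fun i => mk_Iic_le hκ (s i))).trans ?_
    exact (mul_eq_self hκ).le
  have h2 : #(univ : Set (Order.succ κ).ord.ToType) ≤ κ := (mk_le_mk_of_subset hcov).trans h1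
  rw [mk_univ, mk_ord_toType] at h2
  exact absurd h2 (not_le.mpr (Order.lt_succ κ))

/-- a set of size at most `κ` does not exhaust `κ⁺` -/
theorem exists_notMem {s : Set (Order.succ κ).ord.ToType} (hs : #s ≤ κ) : ∃ y, y ∉ s := by
  by_contra hcon
  push Not at hcon
  have h2 : #(univ : Set (Order.succ κ).ord.ToType) ≤ κ :=
    (mk_le_mk_of_subset (fun y _ => hcon y)).trans hs
  rw [mk_univ, mk_ord_toType] at h2
  exact absurd h2 (not_le.mpr (Order.lt_succ κ))

/-- two functions on `κ⁺` are eventually different -/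
def ED (f g : (Order.succ κ).ord.ToType → (Order.succ κ).ord.ToType) : Prop :=
  ∃ t, ∀ β, t ≤ β → f β ≠ g β

/-- There are `κ⁺⁺` pairwise eventually different functions from `κ⁺` to `κ⁺`. -/
theorem exists_ED_family (hκ : ℵ₀ ≤ κ) :
    ∃ (K : Type u) (f : K → (Order.succ κ).ord.ToType → (Order.succ κ).ord.ToType),
      #K = Order.succ (Order.succ κ) ∧ ∀ i j, i ≠ j → ED (f i) (f j) := by
  obtain ⟨m, hm⟩ := zorn_subset
    {F : Set ((Order.succ κ).ord.ToType → (Order.succ κ).ord.ToType) | F.Pairwise ED} (by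
      intro c hc hchain
      refine ⟨⋃₀ c, ?_, fun s hs => subset_sUnion_of_mem hs⟩
      show (⋃₀ c).Pairwise ED
      rw [Set.pairwise_sUnion hchain.directedOn]
      intro s hs
      exact hc hs)
  have hmP : m.Pairwise ED := hm.1
  have hbig : Order.succ (Order.succ κ) ≤ #m := by
    by_contra hlt
    rw [not_le, Order.lt_succ_iff] at hlt
    have hinj : Nonempty (m ↪ (Order.succ κ).ord.ToType) := by
      rw [← Cardinal.le_def, mk_ord_toType]
      exact hlt
    obtain ⟨e⟩ := hinj
    have hex : ∀ β : (Order.succ κ).ord.ToType, ∃ y : (Order.succ κ).ord.ToType,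
        ∀ f : m, e f ≤ β → f.1 β ≠ y := by
      intro β
      have h1 : #((fun f : m => f.1 β) '' {f : m | e f ≤ β}) ≤ κ := by
        refine mk_image_le.trans ?_
        refine le_trans ?_ (mk_Iic_le hκ β)
        refine mk_le_of_injective (f := fun f : {f : m | e f ≤ β} => (⟨e f.1, f.2⟩ : Iic β)) ?_
        intro a b hab
        apply Subtype.ext
        apply e.injective
        exact congrArg Subtype.val hab
      obtain ⟨y, hy⟩ := exists_notMem h1
      refine ⟨y, fun f hf hfy => hy ⟨f, hf, hfy⟩⟩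
    choose g hg using hex
    have hgm : ∀ f : m, ED f.1 g := fun f => ⟨e f, fun β hβ => hg β f hβ⟩
    have hgm' : g ∉ m := by
      intro hgin
      obtain ⟨t, ht⟩ := hgm ⟨g, hgin⟩
      exact ht t le_rfl rfl
    have hins : (insert g m).Pairwise ED := by
      rw [Set.pairwise_insert]
      refine ⟨hmP, ?_⟩
      intro b hb _
      obtain ⟨t, ht⟩ := hgm ⟨b, hb⟩
      exact ⟨⟨t, fun β hβ => (ht β hβ).symm⟩, ⟨t, ht⟩⟩
    have := hm.2 (show insert g m ∈ {F : Set _ | F.Pairwise ED} from hins)
      (subset_insert g m)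
    exact hgm' (this (mem_insert g m))
  obtain ⟨p, hpm, hp⟩ := le_mk_iff_exists_subset.mp hbig
  refine ⟨p, fun i => i.1, hp, ?_⟩
  intro i j hij
  exact hmP (hpm i.2) (hpm j.2) (fun h => hij (Subtype.ext h))

end order

end Pool.Agent.Lib.MP_cc7fb1_lc
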