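import Mathlib
import Pool.Agent.Lib.MP_cc7fb1_lc.DenseDefs
import Pool.Agent.Lib.MP_cc7fb1_lc.Order

/-!
# Normal filters on `κ⁺`: completeness, Galvin's theorem
-/

set_option autoImplicit false

namespace Pool.Agent.Lib.MP_cc7fb1_lc

open Cardinal Set

universe u

variable {κ : Cardinal.{u}}

namespace NormalFilter

variable {F : Filter (Pts κ)}

/-- a normal filter on `κ⁺` is `κ⁺`-complete -/
theorem iInter_mem (hF : NormalFilter F) (hκ : ℵ₀ ≤ κ) {ι : Type u} (hι : #ι ≤ κ)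
    {C : ι → Set (Pts κ)} (hC : ∀ i, C i ∈ F) : (⋂ i, C i) ∈ F := by
  classical
  have he : Nonempty (ι ↪ Pts κ) := by
    rw [← Cardinal.le_def, mk_ord_toType]
    exact hι.trans (Order.le_succ κ)
  obtain ⟨e⟩ := he
  obtain ⟨b, hb⟩ := exists_bound hκ hι e
  have h1 : {y | ∀ x < y, y ∈ ⋂ (i : ι) (_ : e i = x), C i} ∈ F := by
    apply hF.diag
    intro x
    by_cases hx : ∃ i, e i = x
    · obtain ⟨i, hi⟩ := hx
      refine Filter.mem_of_superset (hC i) ?_
      intro y hy
      refine mem_iInter₂.mpr fun j hj => ?_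
      have : j = i := e.injective (hj.trans hi.symm)
      rw [this]
      exact hy
    · refine Filter.mem_of_superset Filter.univ_mem ?_
      intro y _
      exact mem_iInter₂.mpr fun j hj => absurd ⟨j, hj⟩ hx
  refine Filter.mem_of_superset (Filter.inter_mem h1 (hF.final b)) ?_
  rintro y ⟨hy1, hy2⟩
  refine mem_iInter.mpr fun i => ?_
  exact mem_iInter₂.mp (hy1 (e i) ((hb i).trans hy2)) i rfl

theorem biInter_mem (hF : NormalFilter F) (hκ : ℵ₀ ≤ κ) {S : Set (Pts κ)} (hS : #S ≤ κ)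
    {C : Pts κ → Set (Pts κ)} (hC : ∀ i ∈ S, C i ∈ F) : (⋂ i ∈ S, C i) ∈ F := by
  rw [biInter_eq_iInter]
  exact hF.iInter_mem hκ hS fun i => hC i.1 i.2

end NormalFilter

section SubMod

variable {F : Filter (Pts κ)}

theorem SubMod.of_subset {A B : Set (Pts κ)} (h : A ⊆ B) : SubMod F A B := by
  refine Filter.mem_of_superset Filter.univ_mem fun x _ hx => h hx

theorem SubMod.trans {A B C : Set (Pts κ)} (h1 : SubMod F A B) (h2 : SubMod F B C) :
    SubMod F A C := by
  refine Filter.mem_of_superset (Filter.inter_mem h1 h2) ?_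
  rintro x ⟨a, b⟩ hx
  exact b (a hx)

theorem Pos.mono {A B : Set (Pts κ)} (h : Pos F A) (hAB : SubMod F A B) : Pos F B := by
  intro hB
  apply h
  refine Filter.mem_of_superset (Filter.inter_mem hB hAB) ?_
  rintro x ⟨a, b⟩ hx
  exact a (b hx)

/-- a positive set contains a member of the dense family which decides `A` -/
theorem DenseFamily.split {D : Pts κ → Set (Pts κ)} (hD : DenseFamily F D) {P : Set (Pts κ)}
    (hP : Pos F P) (A : Set (Pts κ)) :
    ∃ a, SubMod F (D a) P ∧ (SubMod F (D a) A ∨ SubMod F (D a) Aᶜ) := by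
  by_cases h : Pos F (P ∩ A)
  · obtain ⟨a, ha⟩ := hD.dense _ h
    exact ⟨a, ha.trans (SubMod.of_subset inter_subset_left),
      Or.inl (ha.trans (SubMod.of_subset inter_subset_right))⟩
  · have h' : Pos F (P ∩ Aᶜ) := by
      intro h2
      apply hP
      unfold Pos at h
      rw [not_not] at h
      refine Filter.mem_of_superset (Filter.inter_mem h h2) ?_
      rintro x ⟨a, b⟩ hx
      by_cases hA : x ∈ A
      · exact a ⟨hx, hA⟩
      · exact b ⟨hx, hA⟩
    obtain ⟨a, ha⟩ := hD.dense _ h'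
    exact ⟨a, ha.trans (SubMod.of_subset inter_subset_left),
      Or.inr (ha.trans (SubMod.of_subset inter_subset_right))⟩

end SubMod

/-- the bounded subsets of `κ⁺` -/
abbrev BddSets (κ : Cardinal.{u}) : Type u := {S : Set (Pts κ) // ∃ b, S ⊆ Iic b}

theorem mk_bddSets (hκ : ℵ₀ ≤ κ) (h2 : (2 : Cardinal.{u}) ^ κ = Order.succ κ) :
    #(BddSets κ) ≤ Order.succ κ := by
  have h1 : {S : Set (Pts κ) | ∃ b, S ⊆ Iic b} = ⋃ b, powerset (Iic b) := by
    ext S
    simp
  change #{S : Set (Pts κ) | ∃ b, S ⊆ Iic b} ≤ _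
  rw [h1]
  refine (mk_iUnion_le_sum_mk).trans ?_
  refine (sum_le_mk_mul_iSup _).trans ?_
  rw [mk_ord_toType]
  have h3 : (⨆ b : Pts κ, #(powerset (Iic b))) ≤ Order.succ κ := by
    refine ciSup_le' fun b => ?_
    rw [mk_powerset]
    exact (power_le_power_left two_ne_zero (mk_Iic_le hκ b)).trans h2.le
  refine (mul_le_mul' le_rfl h3).trans ?_
  exact (mul_eq_self (hκ.trans (Order.le_succ κ))).le

/-- pigeonhole principle for `κ⁺⁺` -/
theorem pigeonhole (hκ : ℵ₀ ≤ κ) {ι T : Type u} (hι : Order.succ (Order.succ κ) ≤ #ι)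
    (hT : #T ≤ Order.succ κ) (f : ι → T) :
    ∃ t, Order.succ (Order.succ κ) ≤ #(f ⁻¹' {t}) := by
  have h1 : ℵ₀ ≤ Order.succ κ := hκ.trans (Order.le_succ κ)
  apply infinite_pigeonhole_card f _ hι (h1.trans (Order.le_succ _))
  rw [(isRegular_succ h1).cof_ord]
  exact lt_of_le_of_lt hT (Order.lt_succ _)

/-- a choice of distinct representatives for `κ⁺` many sets of size greater than `κ` -/
theorem exists_injective_choice {ι : Type u} (H : Pts κ → Set ι)
    (hH : ∀ x, Order.succ κ ≤ #(H x)) : ∃ j : Pts κ → ι, Function.Injective j ∧ ∀ x, j x ∈ H x := by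
  classical
  have key : ∀ (x : Pts κ) (p : Iio x → ι), ∃ y, y ∈ H x ∧ y ∉ range p := by
    intro x p
    by_contra hcon
    push Not at hcon
    have h1 : #(H x) ≤ κ := by
      refine (mk_le_mk_of_subset (fun y hy => hcon y hy)).trans (mk_range_le.trans (mk_Iio_le x))
    exact absurd (hH x) (not_le.mpr (lt_of_le_of_lt h1 (Order.lt_succ κ)))
  choose c hc1 hc2 using key
  let j : Pts κ → ι := WellFounded.fix (wellFounded_lt (α := Pts κ)) fun x rec =>
    c x fun z => rec z.1 z.2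
  have hj : ∀ x, j x = c x fun z => j z.1 := by
    intro x
    exact WellFounded.fix_eq _ _ x
  refine ⟨j, ?_, fun x => by rw [hj x]; exact hc1 _ _⟩
  intro x y hxy
  rcases lt_trichotomy x y with h | h | h
  · exfalso
    apply hc2 y fun z => j z.1
    rw [← hj y]
    exact ⟨⟨x, h⟩, hxy⟩
  · exact h
  · exfalso
    apply hc2 x fun z => j z.1
    rw [← hj x]
    exact ⟨⟨y, h⟩, hxy.symm⟩

/-- Galvin's theorem for a normal filter on `κ⁺` when `2 ^ κ = κ⁺` -/
theorem NormalFilter.galvin {F : Filter (Pts κ)} (hF : NormalFilter F) (hκ : ℵ₀ ≤ κ)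
    (h2 : (2 : Cardinal.{u}) ^ κ = Order.succ κ) {ι : Type u}
    (hι : Order.succ (Order.succ κ) ≤ #ι) (C : ι → Set (Pts κ)) (hC : ∀ i, C i ∈ F) :
    ∃ I : Set ι, #I = Order.succ κ ∧ (⋂ i ∈ I, C i) ∈ F := by
  classical
  -- one index all of whose classes are large
  have h1 : ∃ i₀ : ι, ∀ x : Pts κ, Order.succ κ ≤ #{i : ι | C i ∩ Iic x = C i₀ ∩ Iic x} := by
    by_contra hcon
    push Not at hcon
    choose x hx using hcon
    have hT : #(Pts κ × BddSets κ) ≤ Order.succ κ := by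
      rw [mk_prod, lift_id, lift_id, mk_ord_toType]
      exact (mul_le_mul' le_rfl (mk_bddSets hκ h2)).trans
        (mul_eq_self (hκ.trans (Order.le_succ κ))).le
    obtain ⟨⟨z, S⟩, hz⟩ := pigeonhole hκ hι hT
      (fun i => (x i, (⟨C i ∩ Iic (x i), x i, inter_subset_right⟩ : BddSets κ)))
    have hne : ((fun i => (x i, (⟨C i ∩ Iic (x i), x i, inter_subset_right⟩ : BddSets κ))) ⁻¹'
        {(z, S)}).Nonempty := by
      by_contra h0
      rw [not_nonempty_iff_eq_empty] at h0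
      rw [h0, mk_eq_zero] at hz
      exact absurd hz (not_le.mpr (lt_of_le_of_lt zero_le (Order.lt_succ _)))
    obtain ⟨i₁, hi₁⟩ := hne
    have hi₁' : x i₁ = z ∧ C i₁ ∩ Iic (x i₁) = S.1 := by
      have := hi₁
      simp only [mem_preimage, mem_singleton_iff, Prod.mk.injEq] at this
      exact ⟨this.1, congrArg Subtype.val this.2⟩
    have hsub : ((fun i => (x i, (⟨C i ∩ Iic (x i), x i, inter_subset_right⟩ : BddSets κ))) ⁻¹'
        {(z, S)}) ⊆ {i : ι | C i ∩ Iic (x i₁) = C i₁ ∩ Iic (x i₁)} := by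
      intro i hi
      simp only [mem_preimage, mem_singleton_iff, Prod.mk.injEq] at hi
      have h3 : C i ∩ Iic (x i) = S.1 := congrArg Subtype.val hi.2
      rw [mem_ofPred_eq, hi₁'.2, hi₁'.1, ← hi.1]
      exact h3
    have h4 := (hz.trans (mk_le_mk_of_subset hsub)).trans_lt (hx i₁)
    exact absurd h4 (not_lt.mpr (Order.le_succ _))
  obtain ⟨i₀, hi₀⟩ := h1
  obtain ⟨j, hj, hj2⟩ := exists_injective_choice _ hi₀
  refine ⟨range j, ?_, ?_⟩
  · rw [mk_range_eq j hj, mk_ord_toType]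
  · refine Filter.mem_of_superset (Filter.inter_mem (hC i₀) (hF.diag (fun x => C (j x))
      fun x => hC (j x))) ?_
    rintro y ⟨hy1, hy2⟩
    rw [biInter_range]
    refine mem_iInter.mpr fun x => ?_
    rcases lt_or_ge x y with h | h
    · exact hy2 x h
    · have h5 : C (j x) ∩ Iic x = C i₀ ∩ Iic x := hj2 x
      have h6 : y ∈ C i₀ ∩ Iic x := ⟨hy1, h⟩
      rw [← h5] at h6
      exact h6.1

end Pool.Agent.Lib.MP_cc7fb1_lc
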