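import Mathlib
import Pool.Agent.Lib.MP_cc7fb1_lc.DenseBasic

/-!
# The Galvin property from dense families
-/

set_option autoImplicit false

namespace Pool.Agent.Lib.MP_cc7fb1_lc

open Cardinal Set

universe u

variable {κ : Cardinal.{u}}

/-- the union of the members of the dense family with index below `b` which decide `A` -/
def Dec (F : Filter (Pts κ)) (D : Pts κ → Set (Pts κ)) (A : Set (Pts κ)) (b : Pts κ) :
    Set (Pts κ) :=
  {y | ∃ a < b, (SubMod F (D a) A ∨ SubMod F (D a) Aᶜ) ∧ y ∈ D a}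

/-- the union of the `D a`, `a ∈ S` -/
def UnionOver (D : Pts κ → Set (Pts κ)) (S : Set (Pts κ)) : Set (Pts κ) := {y | ∃ a ∈ S, y ∈ D a}

/-- If every set in `U` contains, modulo `F`, the union of a bounded part of the family `D` which
is in `U`, then `U` has the Galvin property. -/
theorem gal_of_bounded_base {F : Filter (Pts κ)} (hF : NormalFilter F) (hκ : ℵ₀ ≤ κ)
    (h2 : (2 : Cardinal.{u}) ^ κ = Order.succ κ) (D : Pts κ → Set (Pts κ))
    {U : Ultrafilter (Pts κ)} (hU : (U : Filter (Pts κ)) ≤ F)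
    (hb : ∀ A ∈ U, ∃ S : BddSets κ, UnionOver D S.1 ∈ U ∧ SubMod F (UnionOver D S.1) A) :
    Gal U (Order.succ κ) (Order.succ (Order.succ κ)) := by
  classical
  intro ι hι A hA
  have hb' : ∀ i, ∃ S : BddSets κ, UnionOver D S.1 ∈ U ∧ SubMod F (UnionOver D S.1) (A i) :=
    fun i => hb (A i) (hA i)
  choose S hS using hb'
  obtain ⟨t, ht⟩ := pigeonhole hκ hι.ge (mk_bddSets hκ h2) S
  let J : Set ι := S ⁻¹' {t}
  have hJ : ∀ i : J, UnionOver D t.1 ∈ U ∧ SubMod F (UnionOver D t.1) (A i.1) := by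
    intro i
    have h3 : S i.1 = t := i.2
    have h4 := hS i.1
    rw [h3] at h4
    exact h4
  obtain ⟨I, hI1, hI2⟩ := hF.galvin hκ h2 (ι := J) ht
    (fun i => {x | x ∈ UnionOver D t.1 → x ∈ A i.1}) (fun i => (hJ i).2)
  refine ⟨Subtype.val '' I, ?_, ?_⟩
  · rw [mk_image_eq Subtype.val_injective, hI1]
  · have hne : Nonempty J := by
      rw [← mk_ne_zero_iff]
      intro h0
      have h5 : Order.succ (Order.succ κ) ≤ 0 := by
        refine ht.trans ?_
        exact h0.le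
      exact absurd h5 (not_le.mpr (lt_of_le_of_lt zero_le (Order.lt_succ _)))
    obtain ⟨i₀⟩ := hne
    refine Filter.mem_of_superset (Filter.inter_mem (hJ i₀).1 (hU hI2)) ?_
    rintro y ⟨hy1, hy2⟩
    rw [biInter_image]
    refine mem_iInter₂.mpr fun i hi => ?_
    exact (mem_iInter₂.mp hy2 i hi) hy1

/-- from decided bounded parts to bounded bases -/
theorem bounded_base_of_dec {F : Filter (Pts κ)} (hF : NormalFilter F) (hκ : ℵ₀ ≤ κ)
    (D : Pts κ → Set (Pts κ)) {U : Ultrafilter (Pts κ)} (hU : (U : Filter (Pts κ)) ≤ F)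
    {A : Set (Pts κ)} (hA : A ∈ U) {b : Pts κ} (hb : Dec F D A b ∈ U) :
    ∃ S : BddSets κ, UnionOver D S.1 ∈ U ∧ SubMod F (UnionOver D S.1) A := by
  refine ⟨⟨{a | a < b ∧ SubMod F (D a) A}, b, fun a ha => le_of_lt ha.1⟩, ?_, ?_⟩
  · have h1 : (⋂ a ∈ {a | a < b ∧ SubMod F (D a) Aᶜ}, {x | x ∈ D a → x ∈ Aᶜ}) ∈ F := by
      apply hF.biInter_mem hκ
      · exact (mk_le_mk_of_subset (fun a ha => ha.1)).trans (mk_Iio_le b)
      · intro a ha
        exact ha.2
    refine Filter.mem_of_superset (Filter.inter_mem (Filter.inter_mem hb hA) (hU h1)) ?_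
    rintro y ⟨⟨⟨a, hab, h3, hy⟩, hyA⟩, hy2⟩
    rcases h3 with h3 | h3
    · exact ⟨a, ⟨hab, h3⟩, hy⟩
    · exact absurd hyA ((mem_iInter₂.mp hy2 a ⟨hab, h3⟩) hy)
  · have h1 : (⋂ a ∈ {a | a < b ∧ SubMod F (D a) A}, {x | x ∈ D a → x ∈ A}) ∈ F := by
      apply hF.biInter_mem hκ
      · exact (mk_le_mk_of_subset (fun a ha => ha.1)).trans (mk_Iio_le b)
      · intro a ha
        exact ha.2
    refine Filter.mem_of_superset h1 ?_
    rintro y hy ⟨a, ha, hya⟩
    exact (mem_iInter₂.mp hy a ha) hya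

/-- for a normal filter the members of the dense family deciding `A` cover almost every point
regressively -/
theorem cover_of_dense {F : Filter (Pts κ)} (hF : NormalFilter F) {D : Pts κ → Set (Pts κ)}
    (hD : DenseFamily F D) (A : Set (Pts κ)) :
    {y | ∃ a < y, (SubMod F (D a) A ∨ SubMod F (D a) Aᶜ) ∧ y ∈ D a} ∈ F := by
  by_contra hcon
  have hpos : Pos F {y | ∃ a < y, (SubMod F (D a) A ∨ SubMod F (D a) Aᶜ) ∧ y ∈ D a}ᶜ := by
    unfold Pos
    rw [compl_compl]
    exact hcon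
  obtain ⟨a, ha1, ha2⟩ := hD.split hpos A
  apply hD.pos a
  refine Filter.mem_of_superset (Filter.inter_mem ha1 (hF.final a)) ?_
  rintro y ⟨hy1, hy2⟩ hy3
  exact hy1 hy3 ⟨a, hy2, ha2, hy3⟩

/-- **Criterion.**  A weakly normal ultrafilter which extends the dual filter of a normal ideal on
`κ⁺` with a dense set of size `κ⁺` has the Galvin property, if `2 ^ κ = κ⁺`. -/
theorem gal_of_weaklyNormal {F : Filter (Pts κ)} (hF : NormalFilter F) (hκ : ℵ₀ ≤ κ)
    (h2 : (2 : Cardinal.{u}) ^ κ = Order.succ κ) {D : Pts κ → Set (Pts κ)}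
    (hD : DenseFamily F D) {U : Ultrafilter (Pts κ)} (hU : (U : Filter (Pts κ)) ≤ F)
    (hw : WeaklyNormal U) : Gal U (Order.succ κ) (Order.succ (Order.succ κ)) := by
  classical
  refine gal_of_bounded_base hF hκ h2 D hU fun A hA => ?_
  have h1 := cover_of_dense hF hD A
  let f : Pts κ → Pts κ := fun y =>
    if h : ∃ a < y, (SubMod F (D a) A ∨ SubMod F (D a) Aᶜ) ∧ y ∈ D a then h.choose else y
  have hf : ∀ y, (∃ a < y, (SubMod F (D a) A ∨ SubMod F (D a) Aᶜ) ∧ y ∈ D a) →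
      f y < y ∧ (SubMod F (D (f y)) A ∨ SubMod F (D (f y)) Aᶜ) ∧ y ∈ D (f y) := by
    intro y h
    have h3 : f y = h.choose := dif_pos h
    rw [h3]
    exact h.choose_spec
  obtain ⟨b, hb⟩ := hw f (hU (Filter.mem_of_superset h1 fun y hy => (hf y hy).1))
  refine bounded_base_of_dec hF hκ D hU hA (b := b) ?_
  refine Filter.mem_of_superset (Filter.inter_mem hb (hU h1)) ?_
  rintro y ⟨hy1, hy2⟩
  exact ⟨f y, hy1, (hf y hy2).2⟩

/-- sets of size less than a regular cardinal are bounded -/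
theorem small_bounded (hreg : κ.IsRegular) (s : Set κ.ord.ToType) (hs : #s < κ) :
    ∃ b, ∀ x ∈ s, x < b := by
  by_contra hcon
  push Not at hcon
  have h1 : Order.cof κ.ord.ToType ≤ #s := by
    apply Order.cof_le
    intro b
    obtain ⟨x, hx, hbx⟩ := hcon b
    exact ⟨x, hx, hbx⟩
  rw [Ordinal.cof_toType, hreg.cof_ord] at h1
  exact absurd hs (not_lt.mpr h1)

/-- there are at most `κ` small subsets of an initial segment -/
theorem mk_small_subsets (hκ : κ.IsInaccessible) (δ : Pts κ) :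
    #{s : Set (Pts κ) | s ⊆ Iio δ ∧ #s < κ} ≤ κ := by
  have he : Nonempty (Iio δ ↪ κ.ord.ToType) := by
    rw [← Cardinal.le_def, mk_ord_toType]
    exact mk_Iio_le δ
  obtain ⟨e⟩ := he
  have h0 : IsStrongPrelimit #κ.ord.ToType := by
    rw [mk_ord_toType]
    exact hκ.isStrongPrelimit
  have h1 := mk_subset_mk_lt_cof h0
  have h2 : (#κ.ord.ToType).ord.cof = κ := by
    rw [mk_ord_toType, hκ.isRegular.cof_ord]
  have h3 : #{s : Set κ.ord.ToType // #s < (#κ.ord.ToType).ord.cof} ≤ κ := by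
    rw [h1, mk_ord_toType]
  refine le_trans ?_ h3
  refine mk_le_of_injective (f := fun s : {s : Set (Pts κ) | s ⊆ Iio δ ∧ #s < κ} =>
    (⟨e '' {x : Iio δ | x.1 ∈ s.1}, ?_⟩ :
      {s : Set κ.ord.ToType // #s < (#κ.ord.ToType).ord.cof})) ?_
  · rw [h2]
    refine lt_of_le_of_lt mk_image_le (lt_of_le_of_lt ?_ s.2.2)
    refine mk_le_of_injective (f := fun x : {x : Iio δ | x.1 ∈ s.1} =>
      (⟨x.1.1, x.2⟩ : s.1)) ?_
    intro x y hxy
    have h6 := congrArg Subtype.val hxy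
    exact Subtype.ext (Subtype.ext h6)
  · intro s t hst
    have h4 : e '' {x : Iio δ | x.1 ∈ s.1} = e '' {x : Iio δ | x.1 ∈ t.1} :=
      congrArg Subtype.val hst
    have h5 := e.injective.image_injective h4
    apply Subtype.ext
    ext x
    constructor
    · intro hx
      have : (⟨x, s.2.1 hx⟩ : Iio δ) ∈ {x : Iio δ | x.1 ∈ s.1} := hx
      rw [h5] at this
      exact this
    · intro hx
      have : (⟨x, t.2.1 hx⟩ : Iio δ) ∈ {x : Iio δ | x.1 ∈ t.1} := hx
      rw [← h5] at this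
      exact this

/-- closure points: for every function on small subsets of `κ⁺` there is `γ < κ⁺` which is closed
under the function -/
theorem exists_closure_point (hκ : κ.IsInaccessible) (Φ : Set (Pts κ) → Pts κ) :
    ∃ γ : Pts κ, ∀ s : Set (Pts κ), s ⊆ Iio γ → #s < κ → Φ s < γ := by
  classical
  have hreg := hκ.isRegular
  have hω : ℵ₀ ≤ κ := hreg.aleph0_le
  -- one step
  have hstep : ∀ δ : Pts κ, ∃ g : Pts κ, δ < g ∧ ∀ s ⊆ Iio δ, #s < κ → Φ s < g := by
    intro δ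
    obtain ⟨b, hb⟩ := exists_bound hω (mk_small_subsets hκ δ) (fun s => Φ s.1)
    obtain ⟨b', hb'⟩ := exists_bound hω (ι := PUnit.{u+1})
      (by rw [mk_punit]; exact one_lt_aleph0.le.trans hω) (fun _ => max b δ)
    refine ⟨b', lt_of_le_of_lt (le_max_right _ _) (hb' ⟨⟩), fun s hs1 hs2 => ?_⟩
    exact (hb ⟨s, hs1, hs2⟩).trans (lt_of_le_of_lt (le_max_left _ _) (hb' ⟨⟩))
  choose g hg1 hg2 using hstep
  -- a chain of length `κ`
  have hnext : ∀ (i : κ.ord.ToType) (p : Iio i → Pts κ), ∃ b, ∀ z, g (p z) < b := by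
    intro i p
    apply exists_bound hω
    have := mk_Iio_lt i (by simp)
    rw [mk_ord_toType] at this
    exact this.le
  choose nx hnx using hnext
  let c : κ.ord.ToType → Pts κ := WellFounded.fix (wellFounded_lt (α := κ.ord.ToType))
    fun i rec => nx i fun z => rec z.1 z.2
  have hc : ∀ i, c i = nx i fun z => c z.1 := by
    intro i
    exact WellFounded.fix_eq _ _ i
  have hc2 : ∀ i j, i < j → g (c i) < c j := by
    intro i j hij
    rw [hc j]
    exact hnx j (fun z => c z.1) ⟨i, hij⟩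
  obtain ⟨γ₀, hγ₀⟩ := exists_bound hω (ι := κ.ord.ToType) (by rw [mk_ord_toType]) c
  obtain ⟨γ, hγ, hmin⟩ := (wellFounded_lt (α := Pts κ)).has_min {y | ∀ i, c i < y} ⟨γ₀, hγ₀⟩
  refine ⟨γ, fun s hs1 hs2 => ?_⟩
  have h1 : ∀ x : s, ∃ i, x.1 ≤ c i := by
    intro x
    by_contra hcon
    push Not at hcon
    exact hmin x.1 hcon (hs1 x.2)
  choose ix hix using h1
  obtain ⟨b, hb⟩ := small_bounded hreg (range ix) (lt_of_le_of_lt mk_range_le hs2)
  obtain ⟨b', hb'⟩ := small_bounded hreg {b} (by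
    rw [mk_singleton]
    exact lt_of_lt_of_le one_lt_aleph0 hω)
  have h2 : s ⊆ Iio (c b) := by
    intro x hx
    have h3 := hix ⟨x, hx⟩
    have h4 := hb _ ⟨⟨x, hx⟩, rfl⟩
    exact lt_of_le_of_lt h3 ((hg1 _).trans (hc2 _ _ h4))
  exact ((hg2 _ s h2 hs2).trans (hc2 _ _ (hb' b rfl))).trans (hγ b')

end Pool.Agent.Lib.MP_cc7fb1_lc
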