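import Mathlib
import Pool.Agent.Lib.MP_cc7fb1_lc.DenseGal

/-!
# Existence of a weakly normal complete ultrafilter from a closed dense set
-/

set_option autoImplicit false

namespace Pool.Agent.Lib.MP_cc7fb1_lc

open Cardinal Set

universe u

variable {κ : Cardinal.{u}}

/-- `E` is a dense set of indices: every positive set contains some `D a`, `a ∈ E` modulo the
ideal -/
def DenseIdx (F : Filter (Pts κ)) (D : Pts κ → Set (Pts κ)) (E : Set (Pts κ)) : Prop :=
  ∀ P, Pos F P → ∃ a ∈ E, SubMod F (D a) P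

/-- the union of the `D a` with `a ∈ E` below `b` -/
def Below (D : Pts κ → Set (Pts κ)) (E : Set (Pts κ)) (b : Pts κ) : Set (Pts κ) :=
  {y | ∃ a < b, a ∈ E ∧ y ∈ D a}

/-- `a` is a lower bound of the indices in `s` -/
def LowerBd (F : Filter (Pts κ)) (D : Pts κ → Set (Pts κ)) (s : Set (Pts κ)) (a : Pts κ) : Prop :=
  ∀ x ∈ s, SubMod F (D a) (D x)

/-- the good bounds for `E`: below `γ`, small sets with a lower bound have one in `E` -/
def GoodBd (F : Filter (Pts κ)) (D : Pts κ → Set (Pts κ)) (E : Set (Pts κ)) (γ : Pts κ) : Prop :=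
  ∀ s : Set (Pts κ), s ⊆ Iio γ → #s < κ → (∃ a, LowerBd F D s a) →
    ∃ a, a < γ ∧ LowerBd F D s a ∧ a ∈ E

theorem exists_goodBd (hκ : κ.IsInaccessible) {F : Filter (Pts κ)} {D : Pts κ → Set (Pts κ)}
    (hD : DenseFamily F D) {E : Set (Pts κ)} (hE : DenseIdx F D E) : ∃ γ, GoodBd F D E γ := by
  classical
  have h1 : ∀ s : Set (Pts κ), ∃ b : Pts κ, (∃ a, LowerBd F D s a) →
      LowerBd F D s b ∧ b ∈ E := by
    intro s
    by_cases h : ∃ a, LowerBd F D s a
    · obtain ⟨a, ha⟩ := h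
      obtain ⟨b, hb1, hb2⟩ := hE _ (hD.pos a)
      exact ⟨b, fun _ => ⟨fun x hx => hb2.trans (ha x hx), hb1⟩⟩
    · have hne : Nonempty (Pts κ) := by
        rw [← mk_ne_zero_iff, mk_ord_toType]
        exact (lt_of_le_of_lt zero_le (Order.lt_succ κ)).ne'
      exact ⟨hne.some, fun h' => absurd h' h⟩
  choose Φ hΦ using h1
  obtain ⟨γ, hγ⟩ := exists_closure_point hκ Φ
  exact ⟨γ, fun s hs1 hs2 hs3 => ⟨Φ s, hγ s hs1 hs2, hΦ s hs3⟩⟩

theorem exists_common_aux {F : Filter (Pts κ)} {D : Pts κ → Set (Pts κ)}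
    (hcl : DescClosed F D) {ι : Type u} [LinearOrder ι] [WellFoundedLT ι] (hι : #ι < κ)
    (E : ι → Set (Pts κ)) (γ : ι → Pts κ) (hmono : Monotone γ)
    (hγ : ∀ i, GoodBd F D (E i) (γ i)) : ∃ d, ∀ i, SubMod F (D d) (Below D (E i) (γ i)) := by
  classical
  have h1 : ∀ (i : ι) (p : Iio i → Pts κ), ∃ b : Pts κ,
      (range p ⊆ Iio (γ i) → (∃ a, LowerBd F D (range p) a) →
        b < γ i ∧ LowerBd F D (range p) b ∧ b ∈ E i) := by
    intro i p
    by_cases h : range p ⊆ Iio (γ i) ∧ (∃ a, LowerBd F D (range p) a)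
    · obtain ⟨b, hb⟩ := hγ i (range p) h.1
        (lt_of_le_of_lt (mk_range_le.trans (mk_set_le _)) hι) h.2
      exact ⟨b, fun _ _ => hb⟩
    · exact ⟨γ i, fun h2 h3 => absurd ⟨h2, h3⟩ h⟩
  choose nx hnx using h1
  let d : ι → Pts κ := WellFounded.fix (wellFounded_lt (α := ι)) fun i rec =>
    nx i fun z => rec z.1 z.2
  have hd : ∀ i, d i = nx i fun z => d z.1 := by
    intro i
    exact WellFounded.fix_eq _ _ i
  have key : ∀ i, d i < γ i ∧ d i ∈ E i ∧ ∀ j < i, SubMod F (D (d i)) (D (d j)) := by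
    intro i
    induction i using WellFoundedLT.induction with
    | ind i ih =>
      have h2 : range (fun z : Iio i => d z.1) ⊆ Iio (γ i) := by
        rintro _ ⟨z, rfl⟩
        exact lt_of_lt_of_le (ih z.1 z.2).1 (hmono (le_of_lt z.2))
      have h3 : ∃ a, LowerBd F D (range (fun z : Iio i => d z.1)) a := by
        obtain ⟨a, ha⟩ := hcl (Iio i) (lt_of_le_of_lt (mk_set_le _) hι) (fun z => d z.1)
          (fun z w hzw => (ih w.1 w.2).2.2 z.1 hzw)
        refine ⟨a, ?_⟩
        rintro _ ⟨z, rfl⟩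
        exact ha z
      obtain ⟨h4, h5, h6⟩ := hnx i _ h2 h3
      rw [← hd i] at h4 h5 h6
      exact ⟨h4, h6, fun j hj => h5 _ ⟨⟨j, hj⟩, rfl⟩⟩
  obtain ⟨a, ha⟩ := hcl ι hι d (fun i j hij => (key j).2.2 i hij)
  refine ⟨a, fun i => (ha i).trans (SubMod.of_subset fun y hy => ?_)⟩
  exact ⟨d i, (key i).1, (key i).2.1, hy⟩

/-- fewer than `κ` dense sets with good bounds have a common lower bound in `D` -/
theorem exists_common {F : Filter (Pts κ)} {D : Pts κ → Set (Pts κ)}
    (hcl : DescClosed F D) {ι : Type u} (hι : #ι < κ) (E : ι → Set (Pts κ)) (γ : ι → Pts κ)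
    (hγ : ∀ i, GoodBd F D (E i) (γ i)) : ∃ d, ∀ i, SubMod F (D d) (Below D (E i) (γ i)) := by
  classical
  -- well-order `ι` such that `γ` is monotone
  have he : Nonempty (ι ≃ (#ι).ord.ToType) := by
    rw [← Cardinal.eq, mk_ord_toType]
  obtain ⟨e⟩ := he
  let f : ι → Pts κ ×ₗ (#ι).ord.ToType := fun i => toLex (γ i, e i)
  have hf : Function.Injective f := by
    intro i j hij
    have h1 : (γ i, e i) = (γ j, e j) := hij
    exact e.injective (congrArg Prod.snd h1)
  let lo : LinearOrder ι := LinearOrder.lift' f hf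
  have wf : WellFoundedLT ι := ⟨InvImage.wf f wellFounded_lt⟩
  refine exists_common_aux hcl hι E γ ?_ hγ
  intro i j hij
  have h2 : f i ≤ f j := hij
  rcases (Prod.Lex.toLex_le_toLex).mp h2 with h3 | h3
  · exact le_of_lt h3
  · exact h3.1.le

/-- Fodor's lemma for a normal filter: a regressive function on a positive set has a positive
fibre -/
theorem NormalFilter.fodor {F : Filter (Pts κ)} (hF : NormalFilter F) {P : Set (Pts κ)}
    (hP : Pos F P) (f : Pts κ → Pts κ) (hf : ∀ y ∈ P, f y < y) :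
    ∃ b, Pos F (P ∩ {y | f y = b}) := by
  by_contra hcon
  push Not at hcon
  have h1 : ∀ b, (P ∩ {y | f y = b})ᶜ ∈ F := by
    intro b
    have := hcon b
    unfold Pos at this
    rwa [not_not] at this
  apply hP
  refine Filter.mem_of_superset (hF.diag _ h1) ?_
  intro y hy hyP
  exact hy (f y) (hf y hyP) ⟨hyP, rfl⟩

/-- **Existence.**  If `κ` is inaccessible, `κ`-complete filters on `κ⁺` extend to `κ`-complete
ultrafilters and some normal ideal on `κ⁺` has a quotient with a dense set of size `κ⁺` closed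
under descending sequences of length `< κ`, then the dual filter of the ideal extends to a weakly
normal uniform `κ`-complete ultrafilter. -/
theorem exists_weaklyNormal (hκ : κ.IsInaccessible) (hext : FilterExtension κ)
    {F : Filter (Pts κ)} (hF : NormalFilter F)
    {D : Pts κ → Set (Pts κ)} (hD : DenseFamily F D) (hcl : DescClosed F D) :
    ∃ U : Ultrafilter (Pts κ), (U : Filter (Pts κ)) ≤ F ∧ UniformUF U ∧
      CompleteFilter (U : Filter (Pts κ)) κ ∧ WeaklyNormal U := by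
  classical
  have hreg := hκ.isRegular
  have hω : ℵ₀ ≤ κ := hreg.aleph0_le
  have h2κ : 2 < κ := lt_of_lt_of_le (by exact_mod_cast natCast_lt_aleph0 (n := 2)) hω
  have hgood : ∀ E : {E : Set (Pts κ) // DenseIdx F D E}, ∃ γ, GoodBd F D E.1 γ := fun E =>
    exists_goodBd hκ hD E.2
  choose γ hγ using hgood
  let gens : Set (Set (Pts κ)) :=
    {X | X ∈ F} ∪ range (fun E : {E : Set (Pts κ) // DenseIdx F D E} => Below D E.1 (γ E))
  let G : Filter (Pts κ) := Filter.cardinalGenerate gens h2κ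
  have hmem : ∀ X, X ∈ G ↔ ∃ S : Set (Set (Pts κ)), S ⊆ gens ∧ #S < κ ∧ ⋂₀ S ⊆ X := fun X =>
    Filter.mem_cardinalGenerate_iff (hreg := hreg)
  have hG0 : ∅ ∉ G := by
    intro h0
    obtain ⟨S, hS1, hS2, hS3⟩ := (hmem ∅).mp h0
    let S2 : Set (Set (Pts κ)) := {X | X ∈ S ∧
      ∃ E : {E : Set (Pts κ) // DenseIdx F D E}, Below D E.1 (γ E) = X}
    have hA : ∀ X : S2, ∃ E : {E : Set (Pts κ) // DenseIdx F D E},
      Below D E.1 (γ E) = X.1 := fun X => X.2.2
    choose E hE' using hA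
    obtain ⟨d, hd⟩ := exists_common hcl (ι := S2)
      (lt_of_le_of_lt (mk_le_mk_of_subset (fun X hX => hX.1)) hS2) (fun X => (E X).1)
      (fun X => γ (E X)) (fun X => hγ (E X))
    have h3 : (⋂ X : S, {x | x ∈ D d → x ∈ X.1}) ∈ F := by
      apply hF.iInter_mem hω hS2.le
      intro X
      rcases hS1 X.2 with h4 | ⟨B, hB⟩
      · exact Filter.mem_of_superset h4 fun x hx _ => hx
      · have h5 := hd ⟨X.1, X.2, B, hB⟩
        rw [hE' ⟨X.1, X.2, B, hB⟩] at h5
        exact h5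
    apply hD.pos d
    refine Filter.mem_of_superset h3 ?_
    intro y hy hyd
    exact hS3 (mem_sInter.mpr fun X hX => (mem_iInter.mp hy ⟨X, hX⟩) hyd)
  have hGc : CompleteFilter G κ := by
    have := Filter.cardinalInter_ofCardinalGenerate gens h2κ
    exact fun S hS1 hS2 => this.cardinal_sInter_mem S hS1 hS2
  obtain ⟨U, hU1, hU2⟩ := hext G hG0 hGc
  have hGgen : ∀ X ∈ gens, X ∈ G := fun X hX =>
    (hmem X).mpr ⟨{X}, singleton_subset_iff.mpr hX, by
      rw [mk_singleton]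
      exact lt_of_lt_of_le one_lt_aleph0 hω, by rw [sInter_singleton]⟩
  have hUF : (U : Filter (Pts κ)) ≤ F := fun X hX => hU1 (hGgen X (Or.inl hX))
  refine ⟨U, hUF, ?_, hU2, ?_⟩
  · intro X hX
    refine le_antisymm (mk_set_le X) ?_
    rw [mk_ord_toType]
    by_contra hcon
    rw [not_le, Order.lt_succ_iff] at hcon
    obtain ⟨b, hb⟩ := exists_bound hω hcon (fun x : X => x.1)
    have h6 : X ∩ Ioi b ∈ U := Filter.inter_mem hX (hUF (hF.final b))
    obtain ⟨y, hy1, hy2⟩ := U.nonempty_of_mem h6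
    exact absurd (hb ⟨y, hy1⟩) (not_lt.mpr (le_of_lt hy2))
  · -- weak normality
    intro f hf
    let E : Set (Pts κ) := {a | ∃ b, SubMod F (D a) {y | f y < y → f y = b}}
    have hE : DenseIdx F D E := by
      intro P hP
      by_cases h7 : Pos F (P ∩ {y | f y < y})
      · obtain ⟨b, hb⟩ := hF.fodor h7 f (fun y hy => hy.2)
        obtain ⟨a, ha⟩ := hD.dense _ hb
        refine ⟨a, ⟨b, ha.trans (SubMod.of_subset fun y hy _ => hy.2)⟩,
          ha.trans (SubMod.of_subset fun y hy => hy.1.1)⟩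
      · obtain ⟨a, ha⟩ := hD.dense _ hP
        refine ⟨a, ⟨a, ?_⟩, ha⟩
        unfold Pos at h7
        rw [not_not] at h7
        refine Filter.mem_of_superset (Filter.inter_mem h7 ha) ?_
        rintro y ⟨hy1, hy2⟩ hy3 hy4
        exact absurd ⟨hy2 hy3, hy4⟩ hy1
    have h8 : Below D E (γ ⟨E, hE⟩) ∈ U := hU1 (hGgen _ (Or.inr ⟨⟨E, hE⟩, rfl⟩))
    -- the value attached to the members of `E`
    let v : Pts κ → Pts κ := fun a =>
      if h : ∃ b, SubMod F (D a) {y | f y < y → f y = b} then h.choose else a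
    have hv : ∀ a ∈ E, SubMod F (D a) {y | f y < y → f y = v a} := by
      intro a ha
      have h9 : v a = (show ∃ b, SubMod F (D a) {y | f y < y → f y = b} from ha).choose :=
        dif_pos ha
      rw [h9]
      exact (show ∃ b, SubMod F (D a) {y | f y < y → f y = b} from ha).choose_spec
    have h10 : (⋂ a ∈ {a | a < γ ⟨E, hE⟩ ∧ a ∈ E},
        {x | x ∈ D a → x ∈ {y | f y < y → f y = v a}}) ∈ F := by
      apply hF.biInter_mem hω
      · exact (mk_le_mk_of_subset (fun a ha => ha.1)).trans (mk_Iio_le (γ ⟨E, hE⟩))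
      · intro a ha
        exact hv a ha.2
    obtain ⟨b, hb⟩ := exists_bound hω (mk_Iio_le (γ ⟨E, hE⟩)) (fun a => v a.1)
    refine ⟨b, ?_⟩
    refine Filter.mem_of_superset (Filter.inter_mem (Filter.inter_mem h8 hf) (hUF h10)) ?_
    rintro y ⟨⟨⟨a, ha1, ha2, ha3⟩, hy1⟩, hy2⟩
    have h11 := (mem_iInter₂.mp hy2 a ⟨ha1, ha2⟩) ha3 hy1
    change f y < b
    rw [h11]
    exact hb ⟨a, ha1⟩

end Pool.Agent.Lib.MP_cc7fb1_lc
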