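import Mathlib
import Pool.Agent.Lib.MP_cc7fb1_lc.Order

/-!
# The least unbounded function modulo a countably complete uniform ultrafilter
-/

namespace Pool.Agent.Lib.MP_cc7fb1_lc

open Cardinal Set

universe u

variable {α : Type u} {κ : Cardinal.{u}}

theorem inter_nat {U : Ultrafilter α} (hκ : ℵ₀ < κ) (hc : CompleteFilter (U : Filter α) κ)
    (A : ℕ → Set α) (hA : ∀ n, A n ∈ U) : ∃ x, ∀ n, x ∈ A n := by
  have h1 : #(range A) < κ := by
    refine lt_of_le_of_lt ?_ hκ
    exact (countable_range A).le_aleph0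
  have h2 : ⋂₀ range A ∈ U := by
    apply hc _ h1
    rintro _ ⟨n, rfl⟩
    exact hA n
  obtain ⟨x, hx⟩ := U.nonempty_of_mem h2
  exact ⟨x, fun n => hx _ ⟨n, rfl⟩⟩

/-- `g` is unbounded modulo `U` -/
def Unb (U : Ultrafilter α) (g : α → (Order.succ κ).ord.ToType) : Prop :=
  ∀ b, {x | b ≤ g x} ∈ U

theorem wf_lt {U : Ultrafilter α} (hκ : ℵ₀ < κ) (hc : CompleteFilter (U : Filter α) κ) :
    WellFounded (fun g h : α → (Order.succ κ).ord.ToType => {x | g x < h x} ∈ U) := by
  rw [wellFounded_iff_isEmpty_descending_chain]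
  refine ⟨?_⟩
  rintro ⟨f, hf⟩
  obtain ⟨x, hx⟩ := inter_nat hκ hc _ hf
  have hdesc : ∀ n, f (n + 1) x < f n x := hx
  have := (wellFounded_iff_isEmpty_descending_chain (α := (Order.succ κ).ord.ToType)
    (r := (· < ·))).mp wellFounded_lt
  exact this.false ⟨fun n => f n x, hdesc⟩

/-- there is an unbounded function -/
theorem exists_unb {U : Ultrafilter α} (hα : #α = Order.succ κ) (hu : UniformUF U) :
    ∃ g : α → (Order.succ κ).ord.ToType, Unb U g := by
  have he : Nonempty (α ≃ (Order.succ κ).ord.ToType) := by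
    rw [← Cardinal.eq, mk_ord_toType, hα]
  obtain ⟨e⟩ := he
  refine ⟨e, fun b => ?_⟩
  by_contra hcon
  have h1 : {x | b ≤ e x}ᶜ ∈ U := Ultrafilter.compl_mem_iff_notMem.mpr hcon
  have h2 := hu _ h1
  have h3 : #({x | b ≤ e x}ᶜ : Set α) ≤ κ := by
    refine le_trans ?_ (mk_Iio_le b)
    refine mk_le_of_injective (f := fun x : ({x | b ≤ e x}ᶜ : Set α) =>
      (⟨e x.1, lt_of_not_ge (fun h : b ≤ e x.1 => x.2 h)⟩ : Iio b)) ?_
    intro x y hxy
    apply Subtype.ext
    apply e.injective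
    exact congrArg Subtype.val hxy
  rw [h2, hα] at h3
  exact absurd h3 (not_le.mpr (Order.lt_succ κ))

/-- there is a least unbounded function -/
theorem exists_least {U : Ultrafilter α} (hκ : ℵ₀ < κ) (hα : #α = Order.succ κ)
    (hu : UniformUF U) (hc : CompleteFilter (U : Filter α) κ) :
    ∃ δ : α → (Order.succ κ).ord.ToType, Unb U δ ∧
      ∀ g : α → (Order.succ κ).ord.ToType, {x | g x < δ x} ∈ U → ∃ b, {x | g x < b} ∈ U := by
  obtain ⟨δ, hδ, hmin⟩ := (wf_lt (U := U) hκ hc).has_min {g | Unb U g} (exists_unb hα hu)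
  refine ⟨δ, hδ, fun g hg => ?_⟩
  by_contra hcon
  push Not at hcon
  refine hmin g ?_ hg
  intro b
  have h1 := Ultrafilter.compl_mem_iff_notMem.mpr (hcon b)
  refine Filter.mem_of_superset h1 ?_
  intro x hx
  exact le_of_not_gt (fun h : g x < b => hx h)

end Pool.Agent.Lib.MP_cc7fb1_lc
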