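import Mathlib
import Pool.Agent.Lib.MP_cc7fb1_lc.Least

/-!
# Proofs for MP_cc7fb1
-/

namespace Pool.Agent.Lib.MP_cc7fb1_lc

open Cardinal Set

universe u

variable {α : Type u} {κ : Cardinal.{u}}

/-- the Galvin property is monotone in the first parameter -/
theorem Gal.mono {U : Ultrafilter α} {μ ν lam : Cardinal.{u}} (h : Gal U ν lam) (hμ : μ ≤ ν) :
    Gal U μ lam := by
  intro ι hι A hA
  obtain ⟨I, hI, hIU⟩ := h ι hι A hA
  rw [← hI] at hμ
  obtain ⟨J, hJI, hJ⟩ := le_mk_iff_exists_subset.mp hμ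
  refine ⟨J, hJ, Filter.mem_of_superset hIU ?_⟩
  exact biInter_subset_biInter_left hJI

/-- A `(κ, κ⁺)`-regular ultrafilter is non-Galvin. -/
theorem not_gal_of_regular {U : Ultrafilter α} (hκ : ℵ₀ < κ) (hα : #α = Order.succ κ)
    (hu : UniformUF U) (hc : CompleteFilter (U : Filter α) κ)
    (hreg : RegularUF U κ (Order.succ κ)) :
    ¬ Gal U κ (Order.succ (Order.succ κ)) := by
  obtain ⟨δ, hδ, hmin⟩ := exists_least hκ hα hu hc
  obtain ⟨K, f, hK, hf⟩ := exists_ED_family hκ.le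
  obtain ⟨ι, E', hι, hE', hsmall'⟩ := hreg
  -- transport the regular family
  have he : Nonempty (ι ≃ (Order.succ κ).ord.ToType) := by
    rw [← Cardinal.eq, mk_ord_toType, hι]
  obtain ⟨e⟩ := he
  obtain ⟨E, hE⟩ : ∃ E : (Order.succ κ).ord.ToType → Set α, E = fun b => E' (e.symm b) := ⟨_, rfl⟩
  have hEU : ∀ b, E b ∈ U := fun b => by rw [hE]; exact hE' _
  have hEE : ∀ b x, x ∈ E b → x ∈ E' (e.symm b) := fun b x h => by rw [hE] at h; exact h
  have hsmall : ∀ x, #{b | x ∈ E b} < κ := by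
    intro x
    refine lt_of_le_of_lt ?_ (hsmall' x)
    refine mk_le_of_injective (f := fun b : {b | x ∈ E b} =>
      (⟨e.symm b.1, hEE b.1 x b.2⟩ : {i | x ∈ E' i})) ?_
    intro a b hab
    apply Subtype.ext
    apply e.symm.injective
    exact congrArg Subtype.val hab
  intro hgal
  obtain ⟨I, hI, hIU⟩ := hgal K hK
    (fun i => {x | ∀ γ, γ < δ x → ∃ β, x ∈ E β ∧ γ ≤ β ∧ x ∈ E (f i β)}) (by
      intro i
      by_contra hcon
      have h1 := Ultrafilter.compl_mem_iff_notMem.mpr hcon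
      have hex : ∀ x, ∃ γ, x ∈ {x | ∀ γ, γ < δ x → ∃ β, x ∈ E β ∧ γ ≤ β ∧ x ∈ E (f i β)}ᶜ →
          γ < δ x ∧ ∀ β, x ∈ E β → γ ≤ β → x ∉ E (f i β) := by
        intro x
        by_cases hx : x ∈ {x | ∀ γ, γ < δ x → ∃ β, x ∈ E β ∧ γ ≤ β ∧ x ∈ E (f i β)}ᶜ
        · rw [mem_compl_iff, mem_ofPred_eq] at hx
          push Not at hx
          obtain ⟨γ, h1, h2⟩ := hx
          exact ⟨γ, fun _ => ⟨h1, h2⟩⟩
        · exact ⟨δ x, fun h => absurd h hx⟩
      choose g hg using hex
      obtain ⟨b, hb⟩ := hmin g (Filter.mem_of_superset h1 (fun x hx => (hg x hx).1))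
      obtain ⟨x, ⟨⟨hx1, hx2⟩, hx3⟩, hx4⟩ := U.nonempty_of_mem
        (Filter.inter_mem (Filter.inter_mem (Filter.inter_mem h1 hb) (hEU b)) (hEU (f i b)))
      exact (hg x hx1).2 b hx3 (le_of_lt hx2) hx4)
  -- thresholds
  have hthr : ∀ p : I × I, ∃ t, p.1 ≠ p.2 → ∀ β, t ≤ β → f p.1 β ≠ f p.2 β := by
    intro p
    by_cases hp : p.1 = p.2
    · obtain ⟨x, -⟩ := U.nonempty_of_mem Filter.univ_mem
      exact ⟨δ x, fun h => absurd hp h⟩
    · obtain ⟨t, ht⟩ := hf p.1.1 p.2.1 (fun h => hp (Subtype.ext h))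
      exact ⟨t, fun _ => ht⟩
  choose t ht using hthr
  have hII : #(I × I) ≤ κ := by
    rw [← mul_def, hI]
    exact (mul_eq_self hκ.le).le
  obtain ⟨bs, hbs⟩ := exists_bound hκ.le hII t
  obtain ⟨bs', hbs'⟩ := exists_bound (κ := κ) hκ.le (ι := PUnit) (by
    rw [mk_punit]; exact (one_lt_aleph0.trans hκ).le) (fun _ => bs)
  obtain ⟨x, hx1, hx2⟩ := U.nonempty_of_mem (Filter.inter_mem hIU (hδ bs'))
  have hlt : bs < δ x := lt_of_lt_of_le (hbs' PUnit.unit) hx2
  have hxI : ∀ i : I, ∃ β, x ∈ E β ∧ bs ≤ β ∧ x ∈ E (f i β) := by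
    intro i
    have := mem_iInter₂.mp hx1 i.1 i.2
    exact this bs hlt
  choose B hB1 hB2 hB3 using hxI
  have hinj : Function.Injective (fun i : I =>
      ((⟨B i, hB1 i⟩, ⟨f i (B i), hB3 i⟩) : {b | x ∈ E b} × {b | x ∈ E b})) := by
    intro i j hij
    by_contra hne
    have h1 : B i = B j := congrArg (fun p => (p.1 : (Order.succ κ).ord.ToType)) hij
    have h2 : f i (B i) = f j (B j) := congrArg (fun p => (p.2 : (Order.succ κ).ord.ToType)) hij
    rw [← h1] at h2
    exact ht (i, j) hne (B i) (((hbs (i, j)).le).trans (hB2 i)) h2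
  have hle := mk_le_of_injective hinj
  rw [← mul_def, hI] at hle
  exact absurd hle (not_le.mpr (mul_lt_of_lt hκ.le (hsmall x) (hsmall x)))

/-- If `U` is not `(κ, κ⁺)`-regular, then the ultrapower of `κ` by `U` has a cofinal family
indexed by `κ⁺`. -/
theorem exists_cofinal_of_not_regular {U : Ultrafilter α} (hκ : ℵ₀ < κ) (hα : #α = Order.succ κ)
    (hu : UniformUF U) (hreg : ¬ RegularUF U κ (Order.succ κ)) :
    ∃ h : (Order.succ κ).ord.ToType → α → κ.ord.ToType,
      ∀ g : α → κ.ord.ToType, ∃ b, {x | g x < h b x} ∈ U := by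
  by_contra hcon
  push Not at hcon
  apply hreg
  obtain ⟨e, he⟩ := exists_unb (κ := κ) hα hu
  have hinj : ∀ y : (Order.succ κ).ord.ToType, Nonempty (Iio y ↪ κ.ord.ToType) := by
    intro y
    rw [← Cardinal.le_def, mk_ord_toType]
    exact mk_Iio_le y
  have hne : Nonempty κ.ord.ToType := by
    rw [← mk_ne_zero_iff, mk_ord_toType]
    exact (aleph0_pos.trans hκ).ne'
  obtain ⟨z⟩ := hne
  have inj : ∀ y : (Order.succ κ).ord.ToType, Iio y ↪ κ.ord.ToType :=
    fun y => Classical.choice (hinj y)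
  classical
  obtain ⟨g, hg⟩ := hcon (fun b x => if hb : b < e x then inj (e x) ⟨b, hb⟩ else z)
  refine ⟨(Order.succ κ).ord.ToType, fun b => {x | ∃ hb : b < e x, inj (e x) ⟨b, hb⟩ ≤ g x},
    mk_ord_toType _, ?_, ?_⟩
  · intro b
    have h1 := Ultrafilter.compl_mem_iff_notMem.mpr (hg b)
    obtain ⟨b', hb'⟩ := exists_bound (κ := κ) hκ.le (ι := PUnit) (by
      rw [mk_punit]; exact (one_lt_aleph0.trans hκ).le) (fun _ => b)
    refine Filter.mem_of_superset (Filter.inter_mem h1 (he b')) ?_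
    rintro x ⟨hx1, hx2⟩
    have hbx : b < e x := lt_of_lt_of_le (hb' PUnit.unit) hx2
    refine ⟨hbx, ?_⟩
    have h2 : ¬ (g x < if hb : b < e x then inj (e x) ⟨b, hb⟩ else z) := fun h => hx1 h
    rw [dif_pos hbx] at h2
    exact not_lt.mp h2
  · intro x
    have hlt : #(Iic (g x)) < κ := by
      have h1 : #(Iio (g x)) < κ := by
        have := mk_Iio_lt (g x) (by simp)
        simpa using this
      have h2 : Iic (g x) ⊆ insert (g x) (Iio (g x)) := by
        intro y hy
        rcases lt_or_eq_of_le (show y ≤ g x from hy) with h | h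
        · exact Or.inr h
        · exact Or.inl h
      refine lt_of_le_of_lt ((mk_le_mk_of_subset h2).trans mk_insert_le) ?_
      exact add_lt_of_lt hκ.le h1 (one_lt_aleph0.trans hκ)
    refine lt_of_le_of_lt ?_ hlt
    refine mk_le_of_injective (f := fun b : {b | x ∈ {x | ∃ hb : b < e x,
      inj (e x) ⟨b, hb⟩ ≤ g x}} => (⟨inj (e x) ⟨b.1, b.2.1⟩, b.2.2⟩ : Iic (g x))) ?_
    intro a b hab
    have h3 := (inj (e x)).injective (congrArg Subtype.val hab)
    exact Subtype.ext (congrArg (fun p : Iio (e x) => p.1) h3)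

/-- Non-regular case: many separated functions give failure of the Galvin property. -/
theorem not_gal_of_separated {U : Ultrafilter α} (hκ : ℵ₀ < κ) (hα : #α = Order.succ κ)
    (hu : UniformUF U) (hreg : ¬ RegularUF U κ (Order.succ κ))
    (hsep : ManySeparated U κ) :
    ¬ Gal U κ (Order.succ (Order.succ κ)) := by
  obtain ⟨h, hh⟩ := exists_cofinal_of_not_regular hκ hα hu hreg
  obtain ⟨G, hG, hGc, K, T, F', hK, hT, hF'⟩ := hsep
  have he : Nonempty (T ≃ κ.ord.ToType) := by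
    rw [← Cardinal.eq, mk_ord_toType, hT]
  obtain ⟨e⟩ := he
  choose b hb using fun i : K => hh (fun x => e (F' i x))
  obtain ⟨c, hc⟩ := infinite_pigeonhole_card b (Order.succ (Order.succ κ)) hK.ge
    (hκ.le.trans ((Order.le_succ κ).trans (Order.le_succ _))) (by
      rw [mk_ord_toType,
        (isRegular_succ (hκ.le.trans (Order.le_succ κ))).cof_ord]
      exact Order.lt_succ _)
  have hc' : #(b ⁻¹' {c}) = Order.succ (Order.succ κ) :=
    le_antisymm ((mk_set_le _).trans hK.le) hc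
  intro hgal
  obtain ⟨I, hI, hIU⟩ := hgal (b ⁻¹' {c}) hc' (fun i => {x | e (F' i x) < h c x}) (by
    intro i
    have h1 := hb i.1
    have h2 : b i.1 = c := i.2
    rw [h2] at h1
    exact h1)
  have hIκ : #(I × I) ≤ κ := by
    rw [← mul_def, hI]
    exact (mul_eq_self hκ.le).le
  have hsets : ⋂₀ (range fun p : I × I => {x | p.1 ≠ p.2 → F' p.1.1.1 x ≠ F' p.2.1.1 x}) ∈ G := by
    apply hGc
    · exact lt_of_le_of_lt (mk_range_le.trans hIκ) (Order.lt_succ κ)
    · rintro _ ⟨p, rfl⟩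
      by_cases hp : p.1 = p.2
      · refine Filter.mem_of_superset Filter.univ_mem (fun x _ h => absurd hp h)
      · refine Filter.mem_of_superset (hF' p.1.1.1 p.2.1.1 ?_) (fun x hx _ => hx)
        intro h1
        exact hp (Subtype.ext (Subtype.ext h1))
  obtain ⟨x, hx1, hx2⟩ := U.nonempty_of_mem (Filter.inter_mem hIU (hG hsets))
  have hinj : Function.Injective (fun i : I =>
      (⟨e (F' i.1.1 x), mem_iInter₂.mp hx1 i.1 i.2⟩ : Iio (h c x))) := by
    intro i j hij
    by_contra hne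
    have h1 : e (F' i.1.1 x) = e (F' j.1.1 x) := congrArg Subtype.val hij
    have h2 := hx2 _ ⟨(i, j), rfl⟩
    exact h2 hne (e.injective h1)
  have hle := mk_le_of_injective hinj
  rw [hI] at hle
  have hlt : #(Iio (h c x)) < κ := by
    have := mk_Iio_lt (h c x) (by simp)
    simpa using this
  exact absurd hle (not_le.mpr hlt)

/-- Almost disjoint functions are separated modulo the filter of sets with small complement. -/
theorem ManyAlmostDisjoint.separated {U : Ultrafilter α} (hκ : ℵ₀ < κ) (hα : #α = Order.succ κ)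
    (hu : UniformUF U) (h : ManyAlmostDisjoint α κ) : ManySeparated U κ := by
  obtain ⟨K, T, F, hK, hT, hF⟩ := h
  let G : Filter α :=
    { sets := {A | #(Aᶜ : Set α) ≤ κ}
      univ_sets := by simp
      sets_of_superset := by
        intro A B hA hAB
        exact (mk_le_mk_of_subset (compl_subset_compl.mpr hAB)).trans hA
      inter_sets := by
        intro A B hA hB
        show #((A ∩ B)ᶜ : Set α) ≤ κ
        rw [compl_inter]
        refine (mk_union_le _ _).trans ?_
        exact (add_le_add hA hB).trans (add_eq_self hκ.le).le }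
  have hGmem : ∀ A : Set α, A ∈ G ↔ #(Aᶜ : Set α) ≤ κ := fun A => Iff.rfl
  refine ⟨G, ?_, ?_, K, T, F, hK, hT, ?_⟩
  · intro A hA
    rw [hGmem] at hA
    by_contra hcon
    have h1 : Aᶜ ∈ U := Ultrafilter.compl_mem_iff_notMem.mpr hcon
    have h2 := hu _ h1
    rw [h2, hα] at hA
    exact absurd hA (not_le.mpr (Order.lt_succ κ))
  · intro S hS hSG
    rw [hGmem, sInter_eq_biInter, compl_iInter₂]
    rw [Order.lt_succ_iff] at hS
    have h1 : (⋃ A ∈ S, (Aᶜ : Set α)) = ⋃ A : S, (A.1ᶜ : Set α) := by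
      rw [biUnion_eq_iUnion]
    rw [h1]
    refine (mk_iUnion_le_sum_mk).trans ?_
    refine (sum_le_mk_mul_iSup _).trans ?_
    refine (mul_le_mul' hS (ciSup_le' fun A : S => (hGmem _).mp (hSG A.1 A.2))).trans ?_
    exact (mul_eq_self hκ.le).le
  · intro i j hij
    rw [hGmem]
    refine le_trans (mk_le_mk_of_subset ?_) (hF i j hij)
    intro x hx
    by_contra hne
    exact hx hne

end Pool.Agent.Lib.MP_cc7fb1_lc
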